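import Pool.Agent.R597.Ex12

/-!
# The forcing theorem for class forcings with equal extensions

Let `M` be a countable transitive model of ZF, and let `C` be the set of the subsets of `M` that
are definable over `M` with parameters. There are notions of class forcing `P` and `Q` with the
same generic extensions such that `P` satisfies the forcing theorem and `Q` does not.

A game is given by a definable child relation on `M` and a definable set of nodes with label 1. A
node has type 1 for the length 0 if it has label 1, and it has type 1 for the length `m + 1` if it
has a child that does not have type 1 for the length `m`. The forcing of the game has hidden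
conditions, finite sequences of nodes with lengths in which the node with number `i` is a child of
the node with number `π i` (here `π` is a function such that each number has infinitely many
preimages), and visible conditions, that say that the node number `i` has length 0 and label 1. A
name in `M` gives access only to the visible conditions and to finitely many of the hidden
conditions in the generic filter. The generic extension is therefore determined by the types of
the nodes, and the sequence of the types is generic for a forcing that is a set and does not depend
on the game. So all games give the same extensions. There are names `σ`, `τ` in `M` such that the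
condition with only one node `z` of length `m` forces `σ = τ` if and only if the type of `z` is 1.
For the game of the formulas the types define the truth in `M`, so the forcing relation is not
definable. `P` is the forcing of a game where the types are definable.
-/

set_option autoImplicit false

namespace Pool.Agent.Results.MP_08e6f5_lc.ForcingTheoremNotInvariant

open Pool.Agent.W868 Pool.Agent.W868.GM Pool.Agent.R597
open ZFSet (pair)

/-- Let `M` be a countable transitive model of ZF. The subsets of `M` that are definable with
parameters form a model of `GB⁻` together with `M`. There are notions of class forcing `P` and `Q`
for it with the same generic extensions, such that `P` satisfies the forcing theorem and `Q` does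
not: the forcing relation of `Q` for the formula `v 0 = v 1` is not definable. And there is a
countable transitive model of ZFC. -/
theorem result :
    (∀ M : ZFSet.{0}, {x | x ∈ M}.Countable → IsZF {x | x ∈ M} →
      IsGB M (DefC M) ∧ ∃ P LP Q LQ : ZFSet.{0},
        IsClassForcing (DefC M) P LP ∧ (∃ t ∈ P, ∀ p ∈ P, pair p t ∈ LP) ∧
        IsClassForcing (DefC M) Q LQ ∧ (∃ t ∈ Q, ∀ q ∈ Q, pair q t ∈ LQ) ∧
        {V | ∃ G, IsGen (DefC M) P LP G ∧ V = Mext M P G} =
          {V | ∃ H, IsGen (DefC M) Q LQ H ∧ V = Mext M Q H} ∧
        ForcingThm M (DefC M) P LP ∧ ¬ ForcingThm M (DefC M) Q LQ ∧
        ¬ ∃ X ∈ DefC M, ∀ x, x ∈ X ↔ ∃ q ∈ Q, ∃ v : Fin 2 → ZFSet.{0},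
          (∀ i, v i ∈ M ∧ IsName Q (v i)) ∧ x = pair q (tup v) ∧
          Forces M (DefC M) Q LQ (.eq (.inl 0) (.inl 1)) v q) ∧
    ∃ M : ZFSet.{0}, {x | x ∈ M}.Countable ∧ IsZFC {x | x ∈ M} :=
  ⟨fun _ hc hM => Ex.main_theorem hc hM, exists_ctm⟩

end Pool.Agent.Results.MP_08e6f5_lc.ForcingTheoremNotInvariant
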